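import Pool.Agent.W78.EG.Defs
import Pool.Agent.W899.EC.Ecnt
import Pool.Agent.Helper923.PNT

/-!
Project EG (helper78), part CNT: `S_ECNT t c`, `S_RESC t c`, `S_PCNT χ`: the number of Farey edges
and of primes. Port of `W899/EC/Ecnt` and `W899/EC/Pcnt`.
-/

set_option autoImplicit false

namespace Pool.Agent.W554.EG

open Finset Filter Topology
open Pool.Agent.W78.GA
open Pool.Agent.W78.EC (rs SL)
open Pool.Agent.W78.EG

variable {t c : ℤ} {f : ℕ} {χ : DirichletCharacter ℂ f}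

lemma hD_of (hF : Fd t c f χ) : t ^ 2 < 4 * c := by
  have h1 := hF.disc
  have h2 : (3 : ℤ) ≤ f := by exact_mod_cast hF.three
  linarith

lemma edge_subset (Y : ℝ) : edge t c Y ⊆ dedge t c Y := by
  classical
  intro e he
  unfold edge at he
  unfold dedge
  rw [mem_filter] at he ⊢
  exact ⟨he.1, he.2.1⟩

/-- every primitive vector is the first member of an edge -/
lemma exists_edge (hD : t ^ 2 < 4 * c) (ht : t = 0 ∨ t = 1) {Y : ℝ} (hY : 2 * (c : ℝ) ≤ Y)
    {v : Qd t c} (hv : v ∈ pball t c Y) : ∃ e ∈ edge t c Y, e.1 = v := by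
  classical
  obtain ⟨hp, hn⟩ := (mem_pball hD).1 hv
  obtain ⟨u₀, hu₀⟩ := Pool.Agent.W803.GA.exists_dt_one hp
  have hc0 : 0 < c := by nlinarith [sq_nonneg t]
  have ht0 : 0 ≤ t := by rcases ht with h | h <;> omega
  have ht1 : t ≤ 1 := by rcases ht with h | h <;> omega
  have hn1 : (1 : ℤ) ≤ (nm v : ℤ) := by
    exact_mod_cast (one_le_nm hD).2 (prim_ne_zero hp)
  have hn1R : (1 : ℝ) ≤ (nm v : ℝ) := by exact_mod_cast hn1
  set n : ℤ := (nm v : ℤ) with hndef
  set i : ℤ := ip v u₀ with hi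
  have hnR : ((n : ℤ) : ℝ) = (nm v : ℝ) := by rw [hndef]; norm_cast
  have hdt : ∀ k : ℤ, dt v (u₀ + (k : Qd t c) * v) = 1 := by
    intro k
    have : dt v (u₀ + (k : Qd t c) * v) = dt v u₀ := by unfold dt; simp; ring
    rw [this, hu₀]
  have hnm : ∀ k : ℤ, n * (nm (u₀ + (k : Qd t c) * v) : ℤ) =
      (i + k * n) ^ 2 + t * (i + k * n) + c := by
    intro k
    have h1 := ip_dt hD v (u₀ + (k : Qd t c) * v)
    rw [hdt k] at h1
    have h2 : ip v (u₀ + (k : Qd t c) * v) = i + k * n := by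
      rw [hi, hndef, nm_cast hD]
      unfold ip
      simp
      ring
    rw [h2] at h1
    rw [hndef, h1]
    ring
  have hnmR : ∀ k : ℤ, (nm v : ℝ) * (nm (u₀ + (k : Qd t c) * v) : ℝ) =
      ((i + k * n : ℤ) : ℝ) ^ 2 + t * ((i + k * n : ℤ) : ℝ) + c := by
    intro k
    have := hnm k
    rw [← hnR]
    exact_mod_cast this
  have ht0R : (0 : ℝ) ≤ t := by exact_mod_cast ht0
  have ht1R : (t : ℝ) ≤ 1 := by exact_mod_cast ht1
  have hc1R : (1 : ℝ) ≤ c := by exact_mod_cast hc0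
  obtain ⟨k, hk, hmax⟩ := Int.exists_greatest_of_bdd
    (P := fun k : ℤ => (nm (u₀ + (k : Qd t c) * v) : ℝ) ≤ Y) (by
      refine ⟨⌈Y * nm v + 1 + |(i : ℝ)|⌉, fun k hk => ?_⟩
      have h1 := hnmR k
      have h2 : ((i + k * n : ℤ) : ℝ) ^ 2 + t * ((i + k * n : ℤ) : ℝ) + c ≤ Y * nm v := by
        rw [← h1, mul_comm]
        exact mul_le_mul_of_nonneg_right hk (by linarith)
      have h3 : ((i + k * n : ℤ) : ℝ) ≤ Y * nm v + 1 := by
        rcases le_or_gt ((i + k * n : ℤ) : ℝ) 0 with hx | hx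
        · have h0 : (0 : ℝ) ≤ Y * nm v := by
            have : (0 : ℝ) ≤ Y := (Nat.cast_nonneg _).trans hk
            positivity
          linarith
        · nlinarith [sq_nonneg (((i + k * n : ℤ) : ℝ) - 1), mul_nonneg ht0R hx.le]
      push_cast at h3
      rw [hnR] at h3
      have h4 : (k : ℝ) ≤ Y * nm v + 1 + |(i : ℝ)| := by
        rcases le_or_gt (k : ℝ) 0 with h | h
        · have : (0 : ℝ) ≤ Y * nm v := by
            have : (0 : ℝ) ≤ Y := (Nat.cast_nonneg _).trans hk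
            positivity
          linarith [abs_nonneg (i : ℝ)]
        · have : (k : ℝ) ≤ k * nm v := by nlinarith
          have h5 := neg_abs_le (i : ℝ)
          linarith
      have h6 := h4.trans (Int.le_ceil _)
      exact_mod_cast h6) (by
      refine ⟨-(i / n), ?_⟩
      have h1 := hnm (-(i / n))
      have h2 : i + -(i / n) * n = i % n := by
        have := Int.emod_add_mul_ediv i n
        linarith
      rw [h2] at h1
      have h3 : 0 ≤ i % n := Int.emod_nonneg _ (by omega)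
      have h4 : i % n < n := Int.emod_lt_of_pos _ (by omega)
      have h7 : t * (i % n) ≤ i % n := by nlinarith
      have h8 : n * (nm (u₀ + ((-(i / n) : ℤ) : Qd t c) * v) : ℤ) ≤ n ^ 2 - n + c := by
        rw [h1]; nlinarith
      rcases le_or_gt c n with hcn | hcn
      · have h5 : (nm (u₀ + ((-(i / n) : ℤ) : Qd t c) * v) : ℤ) ≤ n := by
          by_contra hlt
          push Not at hlt
          nlinarith
        have h6 : (nm (u₀ + ((-(i / n) : ℤ) : Qd t c) * v) : ℝ) ≤ (n : ℝ) := by exact_mod_cast h5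
        rw [hnR] at h6
        exact h6.trans hn
      · have h5 : (nm (u₀ + ((-(i / n) : ℤ) : Qd t c) * v) : ℤ) ≤ 2 * c := by
          by_contra hlt
          push Not at hlt
          nlinarith
        have h6 : (nm (u₀ + ((-(i / n) : ℤ) : Qd t c) * v) : ℝ) ≤ 2 * (c : ℝ) := by
          exact_mod_cast h5
        exact h6.trans hY)
  refine ⟨(v, u₀ + (k : Qd t c) * v), ?_, rfl⟩
  unfold edge
  rw [mem_filter, mem_product]
  refine ⟨⟨hv, (mem_pball hD).2 ⟨Pool.Agent.W803.GA.prim_of_dt (hdt k), hk⟩⟩, hdt k, ?_⟩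
  by_contra hlt
  push Not at hlt
  have e : v + (u₀ + (k : Qd t c) * v) = u₀ + ((k + 1 : ℤ) : Qd t c) * v := by push_cast; ring
  simp only at hlt
  rw [e] at hlt
  have := hmax (k + 1) hlt
  omega

lemma pball_le_edge (hD : t ^ 2 < 4 * c) (ht : t = 0 ∨ t = 1) {Y : ℝ} (hY : 2 * (c : ℝ) ≤ Y) :
    (pball t c Y).card ≤ (edge t c Y).card := by
  classical
  have h : pball t c Y ⊆ (edge t c Y).image Prod.fst := by
    intro v hv
    obtain ⟨e, he, hev⟩ := exists_edge hD ht hY hv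
    exact mem_image.2 ⟨e, he, hev⟩
  exact (card_le_card h).trans card_image_le

lemma pball_lower (hD : t ^ 2 < 4 * c) : ∃ c₁ Y₀ : ℝ, 0 < c₁ ∧ ∀ Y : ℝ, Y₀ ≤ Y →
    c₁ * Y ≤ ((pball t c Y).card : ℝ) := by
  obtain ⟨c₀, hc₀, Y₀, hY₀⟩ := Pool.Agent.W240.GA.A0.a0_of hD (Pool.Agent.W45.GA.lat hD)
  have he := Real.exp_pos 1
  refine ⟨c₀ / Real.exp 1 ^ 2, max 1 (Real.exp 1 * Y₀), by positivity, ?_⟩
  intro Y hY
  have hY1 : 1 ≤ Y := (le_max_left _ _).trans hY
  have hYY : Real.exp 1 * Y₀ ≤ Y := (le_max_right _ _).trans hY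
  have h1 := hY₀ (Y / Real.exp 1) (by rw [le_div_iff₀ he]; linarith)
  rw [mul_div_cancel₀ Y he.ne'] at h1
  have h2 : ∀ z ∈ pball t c Y, bg (Y / Real.exp 1) z ≤ Real.exp 1 ^ 2 / Y := by
    intro z hz
    obtain ⟨hp, hn⟩ := (mem_pball hD).1 hz
    have hn0 : (0 : ℝ) < nm z := nm_posR hD (prim_ne_zero hp)
    unfold bg
    rcases eq_or_lt_of_le (Pool.Agent.W240.GA.A0.w_nonneg
      (Real.log (nm z) - Real.log (Y / Real.exp 1))) with h | h
    · rw [← h]
      simp
      positivity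
    · have h3 : |Real.log (nm z) - Real.log (Y / Real.exp 1)| < 1 := by
        by_contra hge
        push Not at hge
        unfold Pool.Agent.H376R2.MR.w at h
        rw [max_eq_left (by linarith)] at h
        exact lt_irrefl _ h
      rw [Real.log_div (by positivity) he.ne', Real.log_exp, abs_lt] at h3
      have h4 : Real.log Y - 2 ≤ Real.log (nm z) := by linarith [h3.1]
      have h5 : Y / Real.exp 1 ^ 2 ≤ nm z := by
        have h6 : Real.log (Y / Real.exp 1 ^ 2) = Real.log Y - 2 := by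
          rw [Real.log_div (by positivity) (by positivity), Real.log_pow, Real.log_exp]
          norm_num
        rw [← h6] at h4
        exact (Real.log_le_log_iff (by positivity) hn0).1 h4
      have h7 := Pool.Agent.W240.GA.A0.w_le_one (Real.log (nm z) - Real.log (Y / Real.exp 1))
      rw [div_le_div_iff₀ hn0 (by positivity)]
      rw [div_le_iff₀ (by positivity)] at h5
      nlinarith
  have h3 : c₀ ≤ ((pball t c Y).card : ℝ) * (Real.exp 1 ^ 2 / Y) := by
    refine h1.trans ?_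
    rw [← nsmul_eq_mul]
    exact Finset.sum_le_card_nsmul _ _ _ h2
  rw [mul_div_assoc', le_div_iff₀ (by positivity)] at h3
  rw [div_mul_eq_mul_div, div_le_iff₀ (by positivity)]
  exact h3

/-- ECNT -/
theorem ecnt (hF : Fd t c f χ) : S_ECNT t c := by
  classical
  have hD := hD_of hF
  obtain ⟨c₁, Y₀, hc, hlow⟩ := pball_lower hD
  obtain ⟨C, hC, hE⟩ := Pool.Agent.W591.GA.equ_of hD
  obtain ⟨X₀, hX₀⟩ := hE 0
  refine ⟨c₁, C, max (2 * (c : ℝ)) (max Y₀ X₀), hc, fun Y hY => ⟨?_, ?_⟩⟩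
  · refine (hlow Y (((le_max_left _ _).trans (le_max_right _ _)).trans hY)).trans ?_
    exact_mod_cast pball_le_edge hD hF.tt ((le_max_left _ _).trans hY)
  · have h := hX₀ Y 1 0 0 0 0 (((le_max_right _ _).trans (le_max_right _ _)).trans hY) le_rfl
      (by simp)
    have e : (dedge t c Y).filter (fun e => ((1 : ℕ) : ℤ) ∣ e.1.re - 0 ∧ ((1 : ℕ) : ℤ) ∣ e.1.im - 0 ∧
      ((1 : ℕ) : ℤ) ∣ e.2.re - 0 ∧ ((1 : ℕ) : ℤ) ∣ e.2.im - 0) = dedge t c Y := by
      apply Finset.filter_true_of_mem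
      intro e _
      simp
    rw [e] at h
    simp only [Nat.cast_one, one_pow, div_one] at h
    refine le_trans ?_ h
    exact_mod_cast card_le_card (edge_subset Y)

/-- RESC -/
theorem resc (hD : t ^ 2 < 4 * c) : S_RESC t c := by
  classical
  obtain ⟨C, hC, hE⟩ := Pool.Agent.W591.GA.equ_of hD
  obtain ⟨X₀, hX₀⟩ := hE 1
  refine ⟨C, hC, fun P hP => ?_⟩
  set M : ℕ := ∏ p ∈ P, p with hM
  have hM1 : 1 ≤ M := by
    rw [hM]
    exact Nat.one_le_iff_ne_zero.2 (Finset.prod_ne_zero_iff.2 fun p hp => (hP p hp).ne_zero)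
  have hprod : ∏ p ∈ P, ((SL p).card : ℝ) ≤ (M : ℝ) ^ 3 := by
    rw [hM]
    push_cast
    rw [← Finset.prod_pow]
    apply Finset.prod_le_prod
    · intro p _
      exact Nat.cast_nonneg _
    · intro p hp
      exact_mod_cast Pool.Agent.W899.EC.SL_card_le (hP p hp)
  have hprod0 : 0 < ∏ p ∈ P, ((SL p).card : ℝ) := by
    apply Finset.prod_pos
    intro p hp
    exact_mod_cast Pool.Agent.W899.EC.SL_pos (hP p hp)
  refine ⟨max X₀ (Real.exp M), ?_⟩
  intro Y hY y
  have hYX : X₀ ≤ Y := (le_max_left _ _).trans hY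
  have hYM : Real.exp M ≤ Y := (le_max_right _ _).trans hY
  have hY0 : 0 < Y := lt_of_lt_of_le (Real.exp_pos _) hYM
  have hlog : (M : ℝ) ≤ Real.log Y ^ 1 := by
    rw [pow_one, Real.le_log_iff_exp_le hY0]
    exact hYM
  rcases Finset.eq_empty_or_nonempty ((edge t c Y).filter (fun e => ∀ p ∈ P, res p e = y p))
    with h0 | ⟨e₀, he₀⟩
  · have h1 : (((edge t c Y).filter (fun e => ∀ p ∈ P, res p e = y p)).card : ℝ) = 0 := by
      rw [h0, card_empty, Nat.cast_zero]
    have h2 : 0 ≤ C * Y / ∏ p ∈ P, ((SL p).card : ℝ) :=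
      div_nonneg (mul_nonneg hC.le hY0.le) hprod0.le
    exact h1.le.trans h2
  · have h := hX₀ Y M e₀.1.re e₀.1.im e₀.2.re e₀.2.im hYX hM1 hlog
    have hMM : C * Y / (M : ℝ) ^ 3 ≤ C * Y / ∏ p ∈ P, ((SL p).card : ℝ) := by
      apply div_le_div_of_nonneg_left (by positivity) hprod0 hprod
    refine le_trans ?_ (h.trans hMM)
    rw [mem_filter] at he₀
    have hsub : (edge t c Y).filter (fun e => ∀ p ∈ P, res p e = y p) ⊆
        (dedge t c Y).filter (fun e => (M : ℤ) ∣ e.1.re - e₀.1.re ∧ (M : ℤ) ∣ e.1.im - e₀.1.im ∧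
      (M : ℤ) ∣ e.2.re - e₀.2.re ∧ (M : ℤ) ∣ e.2.im - e₀.2.im) := by
      intro e he
      rw [mem_filter] at he ⊢
      refine ⟨edge_subset Y he.1, ?_⟩
      have hpp : ∀ p ∈ P, (p : ℤ) ∣ e.1.re - e₀.1.re ∧ (p : ℤ) ∣ e.1.im - e₀.1.im ∧
          (p : ℤ) ∣ e.2.re - e₀.2.re ∧ (p : ℤ) ∣ e.2.im - e₀.2.im := by
        intro p hp
        have h1 : res p e = res p e₀ := (he.2 p hp).trans (he₀.2 p hp).symm
        unfold res at h1
        simp only [Prod.mk.injEq] at h1
        have hp0 := (hP p hp).pos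
        exact ⟨Pool.Agent.W899.EC.rs_eq_iff hp0 h1.1, Pool.Agent.W899.EC.rs_eq_iff hp0 h1.2.1,
          Pool.Agent.W899.EC.rs_eq_iff hp0 h1.2.2.1, Pool.Agent.W899.EC.rs_eq_iff hp0 h1.2.2.2⟩
      have hdvd : ∀ x : ℤ, (∀ p ∈ P, (p : ℤ) ∣ x) → (M : ℤ) ∣ x := by
        intro x hx
        rw [Int.natCast_dvd]
        rw [hM]
        apply Finset.prod_primes_dvd
        · intro p hp
          exact (hP p hp).prime
        · intro p hp
          exact Int.natCast_dvd.1 (hx p hp)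
      exact ⟨hdvd _ fun p hp => (hpp p hp).1, hdvd _ fun p hp => (hpp p hp).2.1,
        hdvd _ fun p hp => (hpp p hp).2.2.1, hdvd _ fun p hp => (hpp p hp).2.2.2⟩
    exact_mod_cast card_le_card hsub

/-! ### Primes -/

lemma mem_PQ {Q p : ℕ} : p ∈ PQ χ Q ↔ (Q < p ∧ p ≤ 2 * Q) ∧ p.Prime ∧ χ (p : ZMod f) = 1 := by
  classical
  unfold PQ
  rw [mem_filter, mem_Ioc]

lemma sum_log_le (Q : ℕ) : ∑ p ∈ PQ χ Q, Real.log p ≤ Real.log 4 * (2 * Q) := by
  have h := Chebyshev.theta_le_log4_mul_x (x := ((2 * Q : ℕ) : ℝ)) (Nat.cast_nonneg _)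
  unfold Chebyshev.theta at h
  rw [Nat.floor_natCast] at h
  push_cast at h
  refine le_trans ?_ h
  apply Finset.sum_le_sum_of_subset_of_nonneg
  · intro p hp
    rw [mem_PQ] at hp
    rw [mem_filter, mem_Ioc]
    exact ⟨⟨by omega, hp.1.2⟩, hp.2.1⟩
  · intro p hp _
    rw [mem_filter] at hp
    exact Real.log_nonneg (by exact_mod_cast hp.2.one_lt.le)

lemma res_sum_le (χ : DirichletCharacter ℂ f) (Q : ℕ) : ∑ k ∈ Icc 1 (2 * Q),
      ArithmeticFunction.vonMangoldt.residueClass (1 : ZMod f) k -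
    ∑ k ∈ Icc 1 Q, ArithmeticFunction.vonMangoldt.residueClass (1 : ZMod f) k ≤
    ∑ p ∈ PQ χ Q, Real.log p +
      (Chebyshev.psi ((2 * Q : ℕ) : ℝ) - Chebyshev.theta ((2 * Q : ℕ) : ℝ)) := by
  classical
  have e1 : ∑ k ∈ Icc 1 (2 * Q), ArithmeticFunction.vonMangoldt.residueClass (1 : ZMod f) k -
    ∑ k ∈ Icc 1 Q, ArithmeticFunction.vonMangoldt.residueClass (1 : ZMod f) k =
    ∑ k ∈ Ioc Q (2 * Q), ArithmeticFunction.vonMangoldt.residueClass (1 : ZMod f) k := by
    have hd : Icc 1 (2 * Q) = Icc 1 Q ∪ Ioc Q (2 * Q) := by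
      ext k
      simp only [mem_Icc, mem_union, mem_Ioc]
      omega
    rw [hd, sum_union]
    · ring
    · rw [Finset.disjoint_left]
      intro k hk hk'
      rw [mem_Icc] at hk
      rw [mem_Ioc] at hk'
      omega
  have e2 : Chebyshev.psi ((2 * Q : ℕ) : ℝ) - Chebyshev.theta ((2 * Q : ℕ) : ℝ) =
      ∑ k ∈ Ioc 0 (2 * Q), (ArithmeticFunction.vonMangoldt k -
        if k.Prime then Real.log k else 0) := by
    unfold Chebyshev.psi Chebyshev.theta
    rw [Nat.floor_natCast, sum_sub_distrib, ← sum_filter]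
  have hnn : ∀ k : ℕ, 0 ≤ ArithmeticFunction.vonMangoldt k - (if k.Prime then Real.log k else 0) := by
    intro k
    split_ifs with hk
    · rw [ArithmeticFunction.vonMangoldt_apply_prime hk]; simp
    · simp [ArithmeticFunction.vonMangoldt_nonneg]
  have e3 : ∑ p ∈ PQ χ Q, Real.log p = ∑ k ∈ Ioc Q (2 * Q),
      if k.Prime ∧ χ (k : ZMod f) = 1 then Real.log k else 0 := by
    unfold PQ
    rw [sum_filter]
  rw [e1, e2, e3]
  have e4 : ∑ k ∈ Ioc Q (2 * Q), (ArithmeticFunction.vonMangoldt k -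
        if k.Prime then Real.log k else 0) ≤ ∑ k ∈ Ioc 0 (2 * Q), (ArithmeticFunction.vonMangoldt k -
        if k.Prime then Real.log k else 0) := by
    apply Finset.sum_le_sum_of_subset_of_nonneg
    · intro k hk
      rw [mem_Ioc] at hk ⊢
      omega
    · intro k _ _
      exact hnn k
  refine le_trans ?_ (add_le_add_right e4 _)
  rw [← sum_add_distrib]
  apply sum_le_sum
  intro k _
  by_cases hk : (k : ZMod f) = 1
  · have h1 : ArithmeticFunction.vonMangoldt.residueClass (1 : ZMod f) k =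
        ArithmeticFunction.vonMangoldt k := by
      unfold ArithmeticFunction.vonMangoldt.residueClass
      rw [Set.indicator_of_mem]
      exact hk
    have h2 : χ (k : ZMod f) = 1 := by rw [hk, map_one]
    rw [h1]
    by_cases hp : k.Prime
    · simp [hp, h2]
    · simp [hp]
  · have h1 : ArithmeticFunction.vonMangoldt.residueClass (1 : ZMod f) k = 0 := by
      unfold ArithmeticFunction.vonMangoldt.residueClass
      rw [Set.indicator_of_notMem]
      exact hk
    rw [h1]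
    apply add_nonneg
    · split_ifs with hp
      · exact Real.log_nonneg (by exact_mod_cast hp.1.one_lt.le)
      · exact le_rfl
    · exact hnn k

/-- PCNT -/
theorem pcnt (hF : Fd t c f χ) : S_PCNT χ := by
  have : NeZero f := ⟨by have := hF.three; omega⟩
  have hpnt := Pool.Agent.Helper923.PNT.pnt_residueClass (q := f) (a := 1) isUnit_one
  obtain ⟨C, hC⟩ := Chebyshev.psi_sub_theta_le_mul_sqrt
  set η : ℝ := ((Nat.totient f : ℕ) : ℝ)⁻¹ with hη
  have hη0 : 0 < η := by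
    have : 0 < Nat.totient f := Nat.totient_pos.2 (by have := hF.three; omega)
    positivity
  have hev : ∀ᶠ x : ℝ in atTop, |(∑ k ∈ Finset.Icc 1 ⌊x⌋₊,
      ArithmeticFunction.vonMangoldt.residueClass (1 : ZMod f) k) / x - η| < η / 12 := by
    have := hpnt.eventually (Metric.ball_mem_nhds η (show (0 : ℝ) < η / 12 by positivity))
    filter_upwards [this] with x hx
    exact hx
  have hev2 : ∀ᶠ x : ℝ in atTop, |C| * Real.sqrt (2 * x) ≤ η / 4 * x := by
    filter_upwards [eventually_ge_atTop (2 * |C| ^ 2 / (η / 4) ^ 2), eventually_ge_atTop 0]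
      with x hx hx0
    refine (pow_le_pow_iff_left₀ (by positivity) (by positivity) two_ne_zero).1 ?_
    rw [mul_pow, Real.sq_sqrt (by positivity)]
    rw [div_le_iff₀ (by positivity)] at hx
    nlinarith
  obtain ⟨x₁, hx₁⟩ := eventually_atTop.1 (hev.and hev2)
  have key : ∀ Q : ℕ, x₁ ≤ (Q : ℝ) → 2 ≤ Q → η / 2 * Q ≤ ∑ p ∈ PQ χ Q, Real.log p := by
    intro Q hQ hQ2
    have hQ0 : (0 : ℝ) < Q := by exact_mod_cast (by omega : 0 < Q)
    have h1 := (hx₁ Q hQ).1
    have h2 := (hx₁ ((2 * Q : ℕ) : ℝ) (by push_cast; linarith)).1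
    have h3 := (hx₁ Q hQ).2
    rw [Nat.floor_natCast] at h1 h2
    rw [abs_lt] at h1 h2
    have h4 := res_sum_le χ Q
    have h5 := hC ((2 * Q : ℕ) : ℝ)
    have h6 : C * Real.sqrt ((2 * Q : ℕ) : ℝ) ≤ |C| * Real.sqrt (2 * (Q : ℝ)) := by
      push_cast
      exact mul_le_mul_of_nonneg_right (le_abs_self C) (Real.sqrt_nonneg _)
    have h7 : (∑ k ∈ Icc 1 Q, ArithmeticFunction.vonMangoldt.residueClass (1 : ZMod f) k) ≤
        (η + η / 12) * Q := by
      have := h1.2
      rw [sub_lt_iff_lt_add, div_lt_iff₀ hQ0] at this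
      linarith
    have h8 : (η - η / 12) * (2 * Q : ℝ) ≤
        (∑ k ∈ Icc 1 (2 * Q), ArithmeticFunction.vonMangoldt.residueClass (1 : ZMod f) k) := by
      have := h2.1
      have h9 : (0 : ℝ) < ((2 * Q : ℕ) : ℝ) := by push_cast; linarith
      rw [lt_sub_iff_add_lt, lt_div_iff₀ h9] at this
      push_cast at this
      linarith
    linarith
  refine ⟨η / 4, 4 * Real.log 4, by positivity, max 2 ⌈x₁⌉₊, ?_⟩
  intro Q hQ
  have hQ2 : 2 ≤ Q := (le_max_left _ _).trans hQ
  have hQx : x₁ ≤ (Q : ℝ) := (Nat.le_ceil x₁).trans (by exact_mod_cast (le_max_right _ _).trans hQ)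
  have hQ0 : (0 : ℝ) < Q := by exact_mod_cast (by omega : 0 < Q)
  have hQ2' : (2 : ℝ) ≤ Q := by exact_mod_cast hQ2
  have hlogQ : 0 < Real.log Q := Real.log_pos (by linarith)
  have h1 := key Q hQx hQ2
  have h2 := sum_log_le (χ := χ) Q
  have hlog4 : 0 < Real.log 4 := Real.log_pos (by norm_num)
  have hηQ : 0 < η * Q := by positivity
  -- comparison of the sum and the cardinality
  have h3 : ((PQ χ Q).card : ℝ) * Real.log Q ≤ ∑ p ∈ PQ χ Q, Real.log p := by
    rw [← nsmul_eq_mul]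
    apply Finset.card_nsmul_le_sum
    intro p hp
    rw [mem_PQ] at hp
    apply Real.log_le_log hQ0
    exact_mod_cast hp.1.1.le
  have h4 : ∑ p ∈ PQ χ Q, Real.log p ≤ ((PQ χ Q).card : ℝ) * (2 * Real.log Q) := by
    rw [← nsmul_eq_mul]
    apply Finset.sum_le_card_nsmul
    intro p hp
    rw [mem_PQ] at hp
    have h5 : Real.log p ≤ Real.log (2 * Q) := by
      apply Real.log_le_log
      · exact_mod_cast hp.2.1.pos
      · exact_mod_cast hp.1.2
    have h6 : Real.log (2 * Q) = Real.log 2 + Real.log Q := Real.log_mul (by norm_num) hQ0.ne'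
    have h7 : Real.log 2 ≤ Real.log Q := Real.log_le_log (by norm_num) hQ2'
    linarith
  refine ⟨?_, ?_, by linarith, by linarith⟩
  · rw [div_le_iff₀ hlogQ]
    linarith
  · rw [le_div_iff₀ hlogQ]
    linarith

end Pool.Agent.W554.EG
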